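import Pool.Agent.Helper4.UN.Wa

/-!
Sharpness of the unitary theorem: the exterior powers.
-/

open Module MTPairs

namespace UN.W

open TR TR.W3

variable {K : Type*} [Field K] {ι : Type*} [LinearOrder ι] [Fintype ι] {k : ℕ}

/-- The idempotents. -/
def Lam2 (K : Type*) [Field K] (ι : Type*) [LinearOrder ι] [Fintype ι] (k : ℕ) :
    Set (Matrix (Ix ι k ⊕ Ix ι k) (Ix ι k ⊕ Ix ι k) K) :=
  {Q | ∃ P ∈ Lam K ι k, Q = D P}

lemma Lam2_idem : ∀ Q ∈ Lam2 K ι k, Q * Q = Q := by
  rintro _ ⟨P, hP, rfl⟩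
  exact D_idem (Lam_idem P hP)

lemma Lam2_lag : ∀ Q ∈ Lam2 K ι k, Q.transpose * Jd K (Ix ι k) + Jd K (Ix ι k) * Q =
    Jd K (Ix ι k) := by
  rintro _ ⟨P, hP, rfl⟩
  exact D_lag P

/-- The group. -/
noncomputable abbrev GG (K : Type*) [Field K] (ι : Type*) [LinearOrder ι] [Fintype ι] (k : ℕ) :
    Subgroup (Matrix.GeneralLinearGroup (Ix ι k ⊕ Ix ι k) K) := GenG (Lam2 K ι k)

lemma GG_cen : GG K ι k ≤ Cen (e1 K (Ix ι k)) := by
  apply GenG_le (Cen_closed _)
  rintro _ ⟨P, hP, rfl⟩
  exact D_cen (Lam_idem P hP)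

lemma Lun_mem [CharZero K] {i j : ι} (h : i ≠ j) : L (un K k h) ∈ GG K ι k := by
  have hP1 : D (M K k i i) ∈ Lam2 K ι k := ⟨_, Or.inl ⟨i, rfl⟩, rfl⟩
  have hP2 : D (M K k i i + M K k i j) ∈ Lam2 K ι k := ⟨_, Or.inr ⟨i, j, h, rfl⟩, rfl⟩
  obtain ⟨g1, hg1, hg1'⟩ := (GenG_cochar (Lam2_idem _ hP2) hP2).2 2 two_ne_zero
  obtain ⟨g2, hg2, hg2'⟩ := (GenG_cochar (Lam2_idem _ hP1) hP1).2 2⁻¹ (inv_ne_zero two_ne_zero)
  have e : L (un K k h) = g1 * g2 := by
    apply Units.ext
    rw [Units.val_mul, hg1', hg2', torus_D, torus_D, Matrix.fromBlocks_multiply, L_val]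
    have h1 := M_diag_mul (K := K) (k := k) i i
    have h1' := M_diag_mul (K := K) (k := k) i j
    have h2 := M_mul_diag (K := K) (k := k) h
    have e1 : (un K k h).val = 1 + M K k i j := rfl
    have e2 : ((un K k h)⁻¹).val = 1 - M K k i j := rfl
    rw [e1, e2]
    generalize M K k i i = p at *
    generalize M K k i j = x at *
    congr 1
    · simp only [add_mul, mul_add, sub_mul, mul_sub, smul_mul_assoc, mul_smul_comm, one_mul,
        mul_one, h1, h1', h2, smul_add, smul_zero, Matrix.mul_zero, add_zero]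
      match_scalars <;> norm_num
    · simp
    · simp
    · have e3 : ((2 : K) • (1 - (p + x).transpose) + (p + x).transpose) *
          ((2⁻¹ : K) • (1 - p.transpose) + p.transpose) =
          (((2⁻¹ : K) • (1 - p) + p) * ((2 : K) • (1 - (p + x)) + (p + x))).transpose := by
        rw [Matrix.transpose_mul]
        simp only [Matrix.transpose_add, Matrix.transpose_smul, Matrix.transpose_sub,
          Matrix.transpose_one]
      rw [e3, Matrix.zero_mul, zero_add]
      congr 1
      simp only [add_mul, mul_add, sub_mul, mul_sub, smul_mul_assoc, mul_smul_comm, one_mul,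
        mul_one, h1, h1', h2, smul_add, smul_zero, Matrix.mul_zero, add_zero]
      match_scalars <;> norm_num
  rw [e]
  exact Subgroup.mul_mem _ hg1 hg2

lemma Lwe_mem [CharZero K] {i j : ι} (h : i ≠ j) : L (we K k h) ∈ GG K ι k := by
  unfold we
  rw [L_mul, L_mul, L_inv]
  exact Subgroup.mul_mem _ (Subgroup.mul_mem _ (Lun_mem h) (Subgroup.inv_mem _ (Lun_mem h.symm)))
    (Lun_mem h)

/-- All the idempotents are conjugate. -/
lemma conj_all2 [CharZero K] (i0 : ι) {P : Matrix (Ix ι k) (Ix ι k) K} (hP : P ∈ Lam K ι k) :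
    ∃ g : Matrix.GeneralLinearGroup (Ix ι k) K, L g ∈ GG K ι k ∧
      P = (g : Matrix (Ix ι k) (Ix ι k) K) * M K k i0 i0 *
      ((g⁻¹ : Matrix.GeneralLinearGroup (Ix ι k) K) : Matrix (Ix ι k) (Ix ι k) K) := by
  have key : ∀ i, ∃ g : Matrix.GeneralLinearGroup (Ix ι k) K, L g ∈ GG K ι k ∧ M K k i i =
      (g : Matrix (Ix ι k) (Ix ι k) K) * M K k i0 i0 *
      ((g⁻¹ : Matrix.GeneralLinearGroup (Ix ι k) K) : Matrix (Ix ι k) (Ix ι k) K) := by
    intro i
    by_cases h : i = i0
    · subst h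
      exact ⟨1, by rw [L_one]; exact Subgroup.one_mem _, by simp⟩
    · refine ⟨we K k h, Lwe_mem h, ?_⟩
      rw [we_conj, mul_assoc, Units.mul_inv, mul_one]
  rcases hP with ⟨i, rfl⟩ | ⟨i, j, hij, rfl⟩
  · exact key i
  · obtain ⟨g, hg, hgi⟩ := key i
    refine ⟨(un K k hij)⁻¹ * g, ?_, ?_⟩
    · rw [L_mul, L_inv]
      exact Subgroup.mul_mem _ (Subgroup.inv_mem _ (Lun_mem hij)) hg
    have e : M K k i i + M K k i j = (1 - M K k i j) * M K k i i * (1 + M K k i j) := by
      have h1 := M_diag_mul (K := K) (k := k) i j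
      have h2 := M_mul_diag (K := K) (k := k) hij
      calc M K k i i + M K k i j = M K k i i + M K k i i * M K k i j -
            M K k i j * M K k i i - M K k i j * M K k i i * M K k i j := by
            rw [h1, h2]; simp
        _ = _ := by noncomm_ring
    rw [e, mul_inv_rev, inv_inv, Units.val_mul, Units.val_mul]
    change (1 - M K k i j) * M K k i i * (1 + M K k i j) = (1 - M K k i j) * (g : Matrix _ _ K) *
      M K k i0 i0 * (((g⁻¹ : Matrix.GeneralLinearGroup (Ix ι k) K) : Matrix _ _ K) *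
      (1 + M K k i j))
    nth_rewrite 1 [hgi]
    simp only [mul_assoc]

lemma strong [CharZero K] (i0 : ι) :
    IsStrongMTPair ⊥ (Jd K (Ix ι k)) (GG K ι k) (D (M K k i0 i0)) := by
  have hpair : IsMTPair (Jd K (Ix ι k)) (GG K ι k) :=
    isMTPair_gen Jd_transpose Jd_det Lam2_idem Lam2_lag
  refine ⟨hpair.skew, hpair.det, hpair.sim, hpair.closed, ?_, ?_, ?_, ?_⟩
  · intro θ hθ
    rw [Subgroup.mem_bot] at hθ
    subst hθ
    exact ⟨RingEquiv.refl K, fun v w => rfl, fun c v => rfl⟩
  · intro θ hθ g hg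
    rw [Subgroup.mem_bot] at hθ
    subst hθ
    exact ⟨g, hg, fun v => rfl⟩
  · exact GenG_cochar (D_idem (M_diag_mul _ _)) ⟨_, Or.inl ⟨i0, rfl⟩, rfl⟩
  · intro H hH hall
    apply GenG_le hH
    rintro _ ⟨P, hP, rfl⟩
    obtain ⟨g, hg, hPg⟩ := conj_all2 i0 hP
    apply hall
    refine ⟨1, Subgroup.one_mem _, L g, hg, fun v => ?_⟩
    rw [Equiv.Perm.one_apply, Equiv.Perm.one_apply, Matrix.mulVec_mulVec,
      Matrix.mulVec_mulVec, L_D, ← hPg]

lemma split [CharZero K] :
    IsUnitarySplit ⊥ (Jd K (Ix ι k)) (GG K ι k) (W1 K (Ix ι k)) (W2 K (Ix ι k)) := by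
  refine ⟨compl_W, iso1, iso2, fun g hg v hv => cen_W1 (GG_cen hg) hv,
    fun g hg v hv => cen_W2 (GG_cen hg) hv, ?_, ?_⟩
  · intro U hUW hU
    have key : ∀ π ∈ Lam K ι k, Pres (U.comap (i1 K (Ix ι k))) π := by
      intro π hπ v hv
      rw [Submodule.mem_comap] at hv ⊢
      have hmem : D π ∈ Lam2 K ι k := ⟨π, hπ, rfl⟩
      obtain ⟨g, hg, hgt⟩ := (GenG_cochar (Lam2_idem _ hmem) hmem).2 2 two_ne_zero
      have h1 := hU g hg _ hv
      have h2 : (g : Matrix _ _ K).mulVec (i1 K (Ix ι k) v) =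
          i1 K (Ix ι k) (π.mulVec v) + i1 K (Ix ι k) v := by
        rw [hgt, torus_D, blk_i1, ← map_add]
        have : (2 : K) • π + (1 - π) = π + 1 := by rw [two_smul]; abel
        rw [this, Matrix.add_mulVec, Matrix.one_mulVec]
      rw [h2] at h1
      have := U.sub_mem h1 hv
      rwa [add_sub_cancel_right] at this
    rcases irr key with h | h
    · left
      rw [eq_bot_iff]
      intro u hu
      have hu1 := hUW hu
      rw [← range_i1] at hu1
      obtain ⟨v, rfl⟩ := hu1
      have : v ∈ U.comap (i1 K (Ix ι k)) := hu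
      rw [h, Submodule.mem_bot] at this
      rw [this, map_zero]
      exact Submodule.zero_mem _
    · right
      apply le_antisymm hUW
      intro u hu1
      rw [← range_i1] at hu1
      obtain ⟨v, rfl⟩ := hu1
      have : v ∈ U.comap (i1 K (Ix ι k)) := by rw [h]; trivial
      exact this
  · intro θ hθ
    rw [Subgroup.mem_bot] at hθ
    subst hθ
    exact Or.inl ⟨fun v hv => hv, fun v hv => hv⟩

/-! ### Ranks -/

section ranks
variable {m : Type*} [Fintype m] [DecidableEq m]

omit [DecidableEq m] in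
lemma map_W1 (A B : Matrix m m K) : (W1 K m).map (Matrix.fromBlocks A 0 0 B).mulVecLin =
    (LinearMap.range A.mulVecLin).map (i1 K m) := by
  rw [← range_i1, ← LinearMap.range_comp, ← LinearMap.range_comp]
  congr 1
  apply LinearMap.ext
  intro v
  exact blk_i1 A B v

omit [DecidableEq m] in
lemma map_W2 (A B : Matrix m m K) : (W2 K m).map (Matrix.fromBlocks A 0 0 B).mulVecLin =
    (LinearMap.range B.mulVecLin).map (i2 K m) := by
  rw [← range_i2, ← LinearMap.range_comp, ← LinearMap.range_comp]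
  congr 1
  apply LinearMap.ext
  intro v
  exact blk_i2 A B v

omit [DecidableEq m] in
lemma fr_W1 (A B : Matrix m m K) :
    finrank K ((W1 K m).map (Matrix.fromBlocks A 0 0 B).mulVecLin) = A.rank := by
  rw [map_W1]
  exact (Submodule.equivMapOfInjective _ i1_inj _).finrank_eq.symm

omit [DecidableEq m] in
lemma fr_W2 (A B : Matrix m m K) :
    finrank K ((W2 K m).map (Matrix.fromBlocks A 0 0 B).mulVecLin) = B.rank := by
  rw [map_W2]
  exact (Submodule.equivMapOfInjective _ i2_inj _).finrank_eq.symm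

lemma fr_top (A B : Matrix m m K) :
    finrank K ((⊤ : Submodule K (m ⊕ m → K)).map (Matrix.fromBlocks A 0 0 B).mulVecLin) =
      A.rank + B.rank := by
  have h : (⊤ : Submodule K (m ⊕ m → K)) = W1 K m ⊔ W2 K m := compl_W.sup_eq_top.symm
  rw [h, Submodule.map_sup]
  have h2 : (W1 K m).map (Matrix.fromBlocks A 0 0 B).mulVecLin ⊓
      (W2 K m).map (Matrix.fromBlocks A 0 0 B).mulVecLin = ⊥ := by
    have a1 : (W1 K m).map (Matrix.fromBlocks A 0 0 B).mulVecLin ≤ W1 K m := by
      rw [map_W1, ← range_i1]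
      exact LinearMap.map_le_range
    have a2 : (W2 K m).map (Matrix.fromBlocks A 0 0 B).mulVecLin ≤ W2 K m := by
      rw [map_W2, ← range_i2]
      exact LinearMap.map_le_range
    rw [eq_bot_iff]
    exact le_trans (inf_le_inf a1 a2) compl_W.inf_eq_bot.le
  have h3 := Submodule.finrank_sup_add_finrank_inf_eq
    ((W1 K m).map (Matrix.fromBlocks A 0 0 B).mulVecLin)
    ((W2 K m).map (Matrix.fromBlocks A 0 0 B).mulVecLin)
  rw [h2, finrank_bot, add_zero, fr_W1, fr_W2] at h3
  exact h3

end ranks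

lemma card_in (i : ι) (hk : 1 ≤ k) : Fintype.card {S : Ix ι k // i ∈ S.1} =
    (Fintype.card ι - 1).choose (k - 1) := by
  have e : {S : Ix ι k // i ∈ S.1} ≃
      ↥(Finset.powersetCard (k - 1) ((Finset.univ : Finset ι).erase i)) :=
    { toFun := fun S => ⟨S.1.1.erase i, by
        rw [Finset.mem_powersetCard]
        refine ⟨Finset.erase_subset_erase _ (Finset.subset_univ _), ?_⟩
        rw [Finset.card_erase_of_mem S.2, S.1.2]⟩
      invFun := fun R => ⟨⟨insert i R.1, by
          have h1 := (Finset.mem_powersetCard.mp R.2)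
          rw [Finset.card_insert_of_notMem, h1.2]
          · omega
          · intro hi
            have := h1.1 hi
            simp at this⟩, Finset.mem_insert_self _ _⟩
      left_inv := by
        intro S
        apply Subtype.ext; apply Subtype.ext
        exact Finset.insert_erase S.2
      right_inv := by
        intro R
        apply Subtype.ext
        apply Finset.erase_insert
        intro hi
        have := (Finset.mem_powersetCard.mp R.2).1 hi
        simp at this }
  rw [Fintype.card_congr e, Fintype.card_coe, Finset.card_powersetCard,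
    Finset.card_erase_of_mem (Finset.mem_univ _), Finset.card_univ]

lemma card_notin (i : ι) : Fintype.card {S : Ix ι k // i ∉ S.1} =
    (Fintype.card ι - 1).choose k := by
  have e : {S : Ix ι k // i ∉ S.1} ≃
      ↥(Finset.powersetCard k ((Finset.univ : Finset ι).erase i)) :=
    { toFun := fun S => ⟨S.1.1, by
        rw [Finset.mem_powersetCard]
        refine ⟨?_, S.1.2⟩
        intro x hx
        exact Finset.mem_erase.mpr ⟨fun h => S.2 (h ▸ hx), Finset.mem_univ _⟩⟩
      invFun := fun R => ⟨⟨R.1, (Finset.mem_powersetCard.mp R.2).2⟩, by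
          intro hi
          have := (Finset.mem_powersetCard.mp R.2).1 hi
          simp at this⟩
      left_inv := by
        intro S
        rfl
      right_inv := by
        intro R
        rfl }
  rw [Fintype.card_congr e, Fintype.card_coe, Finset.card_powersetCard,
    Finset.card_erase_of_mem (Finset.mem_univ _), Finset.card_univ]

lemma rank_in (i : ι) (hk : 1 ≤ k) : (M K k i i).rank = (Fintype.card ι - 1).choose (k - 1) := by
  classical
  rw [M_same, Matrix.rank_diagonal, ← card_in i hk]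
  apply Fintype.card_congr
  apply Equiv.subtypeEquivRight
  intro S
  by_cases h : i ∈ S.1 <;> simp [h]

lemma rank_notin (i : ι) : (1 - (M K k i i).transpose).rank =
    (Fintype.card ι - 1).choose k := by
  classical
  have e : 1 - (M K k i i).transpose =
      Matrix.diagonal (fun S : Ix ι k => if i ∈ S.1 then (0 : K) else 1) := by
    rw [M_same, Matrix.diagonal_transpose, ← Matrix.diagonal_one, Matrix.diagonal_sub]
    congr 1
    funext S
    by_cases h : i ∈ S.1 <;> simp [h]
  rw [e, Matrix.rank_diagonal, ← card_notin i]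
  apply Fintype.card_congr
  apply Equiv.subtypeEquivRight
  intro S
  by_cases h : i ∈ S.1 <;> simp [h]

lemma quad [CharZero K] {i j : ι} (h : i ≠ j) (hk : 1 ≤ k) :
    IsQuadraticOn (L (un K k h)) ⊤ (2 * (Fintype.card ι - 2).choose (k - 1)) := by
  have e : (L (un K k h) : Matrix _ _ K) - 1 =
      Matrix.fromBlocks (M K k i j) 0 0 ((-1 : K) • M K k i j).transpose := by
    have e1 : (un K k h).val = 1 + M K k i j := rfl
    have e2 : ((un K k h)⁻¹).val = 1 - M K k i j := rfl
    rw [L_val, e1, e2, ← Matrix.fromBlocks_one, sub_eq_add_neg, Matrix.fromBlocks_neg,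
      Matrix.fromBlocks_add]
    congr 1
    · abel
    · simp
    · simp
    · rw [Matrix.transpose_sub, Matrix.transpose_smul, Matrix.transpose_one, neg_one_smul]
      abel
  have hr : (M K k i j).rank = (Fintype.card ι - 2).choose (k - 1) := by
    have := rank_M (K := K) (k := k) h hk
    rwa [← LinearMap.range_eq_map] at this
  constructor
  · intro v _
    rw [e, Matrix.mulVec_mulVec, Matrix.fromBlocks_multiply]
    have h1 : ((-1 : K) • M K k i j).transpose * ((-1 : K) • M K k i j).transpose = 0 := by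
      rw [← Matrix.transpose_mul, smul_mul_smul_comm, M_sq h]
      simp
    rw [h1, M_sq h]
    simp
  · rw [e, fr_top, Matrix.rank_transpose, Matrix.rank_smul_of_mem_nonZeroDivisors, hr, two_mul]
    exact mem_nonZeroDivisors_of_ne_zero (by norm_num)

/-! ### The group is small -/

/-- The span of the operators, in the first block. -/
noncomputable def gl2 (K : Type*) [Field K] (ι : Type*) [LinearOrder ι] [Fintype ι] (k : ℕ) :
    Submodule K (Matrix (Ix ι k ⊕ Ix ι k) (Ix ι k ⊕ Ix ι k) K) where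
  carrier := {Y | ∃ X ∈ gl K ι k, Y = Matrix.fromBlocks X 0 0 0}
  add_mem' := by
    rintro _ _ ⟨X, hX, rfl⟩ ⟨X', hX', rfl⟩
    refine ⟨X + X', Submodule.add_mem _ hX hX', ?_⟩
    rw [Matrix.fromBlocks_add]
    simp
  zero_mem' := ⟨0, Submodule.zero_mem _, by simp⟩
  smul_mem' := by
    rintro c _ ⟨X, hX, rfl⟩
    refine ⟨c • X, Submodule.smul_mem _ _ hX, ?_⟩
    rw [Matrix.fromBlocks_smul]
    simp

lemma Lam_br {P : Matrix (Ix ι k) (Ix ι k) K} (hP : P ∈ Lam K ι k)
    {X : Matrix (Ix ι k) (Ix ι k) K} (hX : X ∈ gl K ι k) : P * X - X * P ∈ gl K ι k := by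
  rcases hP with ⟨i, rfl⟩ | ⟨i, j, hij, rfl⟩
  · exact M_br i i hX
  · have e : (M K k i i + M K k i j) * X - X * (M K k i i + M K k i j) =
        (M K k i i * X - X * M K k i i) + (M K k i j * X - X * M K k i j) := by noncomm_ring
    rw [e]
    exact Submodule.add_mem _ (M_br i i hX) (M_br i j hX)

lemma GG_nor [CharZero K] : GG K ι k ≤ Nor (gl2 K ι k) := by
  apply GenG_le (Nor_closed _)
  rintro _ ⟨P, hP, rfl⟩
  apply Nor_cochar (D_idem (Lam_idem P hP))
  rintro _ ⟨X, hX, rfl⟩
  refine ⟨P * X - X * P, Lam_br hP hX, ?_⟩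
  rw [D, Matrix.fromBlocks_multiply, Matrix.fromBlocks_multiply, sub_eq_add_neg,
    Matrix.fromBlocks_neg, Matrix.fromBlocks_add]
  simp [sub_eq_add_neg]

lemma not_contains [CharZero K] (hk : 2 ≤ k) (hn : k + 2 ≤ Fintype.card ι) :
    ¬ ContainsSU (Jd K (Ix ι k)) (GG K ι k) (W1 K (Ix ι k)) (W2 K (Ix ι k)) := by
  intro hSU
  obtain ⟨S, -, hS⟩ : ∃ S : Finset ι, S ⊆ Finset.univ ∧ S.card = k :=
    Finset.exists_subset_card_eq (by rw [Finset.card_univ]; omega)
  have hSc : 1 < (Sᶜ).card := by rw [Finset.card_compl, hS]; omega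
  obtain ⟨i, hi, p, hp, hip⟩ := Finset.one_lt_card.mp (show 1 < S.card by omega)
  obtain ⟨j, hj, q, hq, hjq⟩ := Finset.one_lt_card.mp hSc
  rw [Finset.mem_compl] at hj hq
  set S0 : Ix ι k := ⟨S, hS⟩ with hS0
  have hjS : j ∉ S.erase i := fun h => hj (Finset.mem_of_mem_erase h)
  set T0 : Ix ι k := ⟨insert j (S.erase i), by
    rw [Finset.card_insert_of_notMem hjS, Finset.card_erase_add_one hi]; exact hS⟩ with hT0
  have hpT : p ∈ T0.1 := Finset.mem_insert_of_mem (Finset.mem_erase.mpr ⟨hip.symm, hp⟩)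
  have hqT : q ∉ T0.1 := by
    intro h
    rcases Finset.mem_insert.mp h with h | h
    · exact hjq h.symm
    · exact hq (Finset.mem_of_mem_erase h)
  have hqT' : q ∉ T0.1.erase p := fun h => hqT (Finset.mem_of_mem_erase h)
  set B0 : Ix ι k := ⟨insert q (T0.1.erase p), by
    rw [Finset.card_insert_of_notMem hqT', Finset.card_erase_add_one hpT]; exact T0.2⟩ with hB0
  have hjp : j ≠ p := fun h => hj (h ▸ hp)
  have hjB : j ∈ B0.1 := Finset.mem_insert_of_mem
    (Finset.mem_erase.mpr ⟨hjp, Finset.mem_insert_self _ _⟩)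
  have hqB : q ∈ B0.1 := Finset.mem_insert_self _ _
  have hST : S0 ≠ T0 := by
    intro h
    have : j ∈ S0.1 := by rw [h]; exact Finset.mem_insert_self _ _
    exact hj this
  have hBT : B0 ≠ T0 := by
    intro h
    apply hqT
    rw [← h]; exact hqB
  have hent : ∀ a b, B0.1 ≠ insert b (S0.1.erase a) := by
    intro a b h
    have h1 : j = b := by
      have := hjB
      rw [h] at this
      rcases Finset.mem_insert.mp this with h | h
      · exact h
      · exact absurd (Finset.mem_of_mem_erase h) hj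
    have h2 : q = b := by
      have := hqB
      rw [h] at this
      rcases Finset.mem_insert.mp this with h | h
      · exact h
      · exact absurd (Finset.mem_of_mem_erase h) hq
    exact hjq (h1.trans h2.symm)
  set N : Matrix (Ix ι k) (Ix ι k) K := Matrix.single S0 T0 1 with hN
  have hsq : N * N = 0 := Matrix.single_mul_single_of_ne _ _ _ _ hST.symm _
  let g0 : Matrix.GeneralLinearGroup (Ix ι k) K :=
    ⟨1 + N, 1 - N,
      by
        have e : (1 + N) * (1 - N) = 1 - N * N := by noncomm_ring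
        rw [e, hsq, sub_zero],
      by
        have e : (1 - N) * (1 + N) = 1 - N * N := by noncomm_ring
        rw [e, hsq, sub_zero]⟩
  have hg1 : g0.val = 1 + N := rfl
  have hg2 : (g0⁻¹).val = 1 - N := rfl
  have hcen : L g0 ∈ Cen (e1 K (Ix ι k)) := by
    change (L g0).val * e1 K (Ix ι k) = e1 K (Ix ι k) * (L g0).val
    rw [L_val, e1, Matrix.fromBlocks_multiply, Matrix.fromBlocks_multiply]
    simp
  have hiso : (L g0).val.transpose * Jd K (Ix ι k) * (L g0).val = Jd K (Ix ι k) := by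
    have h1 : (g0⁻¹).val * g0.val = 1 := by rw [← Units.val_mul, inv_mul_cancel, Units.val_one]
    rw [L_val, Jd, Matrix.fromBlocks_transpose, Matrix.fromBlocks_multiply,
      Matrix.fromBlocks_multiply]
    simp only [Matrix.transpose_zero, Matrix.mul_zero, Matrix.mul_one, zero_add, add_zero,
      Matrix.zero_mul, Matrix.transpose_transpose, mul_neg, neg_mul, ← Matrix.transpose_mul, h1,
      Matrix.transpose_one, neg_zero]
  have hdet : ∀ h : ∀ v ∈ W1 K (Ix ι k), (L g0).val.mulVecLin v ∈ W1 K (Ix ι k),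
      LinearMap.det ((L g0).val.mulVecLin.restrict h) = 1 := by
    intro h
    let e : (Ix ι k → K) ≃ₗ[K] W1 K (Ix ι k) :=
      (LinearEquiv.ofInjective (i1 K (Ix ι k)) i1_inj).trans (LinearEquiv.ofEq _ _ range_i1)
    have he : (L g0).val.mulVecLin.restrict h =
        (e : (Ix ι k → K) →ₗ[K] W1 K (Ix ι k)) ∘ₗ (1 + N).mulVecLin ∘ₗ
          (e.symm : W1 K (Ix ι k) →ₗ[K] (Ix ι k → K)) := by
      apply LinearMap.ext
      intro w
      obtain ⟨v, rfl⟩ := e.surjective w
      apply Subtype.ext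
      change (L g0).val.mulVec (i1 K (Ix ι k) v) =
        ((e ((1 + N).mulVec (e.symm (e v))) : W1 K (Ix ι k)) : _ → K)
      rw [e.symm_apply_apply, L_val, blk_i1]
      rfl
    rw [he, LinearMap.det_conj, ← Matrix.toLin'_apply', LinearMap.det_toLin']
    exact Matrix.det_transvection_of_ne S0 T0 hST 1
  have hmem := hSU (L g0) hiso (fun v hv => cen_W2 hcen hv) (fun v hv => cen_W1 hcen hv)
    (hdet _)
  obtain ⟨X, hX, hXe⟩ := (GG_nor hmem _ ⟨M K k p q, M_mem p q, rfl⟩).1
  have h2 : (1 + N) * M K k p q * (1 - N) = X := by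
    have h3 : ((L g0)⁻¹).val = Matrix.fromBlocks (g0⁻¹).val 0 0 g0.val.transpose := rfl
    rw [L_val, h3, Matrix.fromBlocks_multiply, Matrix.fromBlocks_multiply] at hXe
    have h4 := (Matrix.fromBlocks_inj.mp hXe).1
    simpa [hg1, hg2] using h4
  have h3 : X S0 B0 = 0 := gl_entry hent hX
  have h4 : (M K k p q) S0 B0 = 0 := gl_entry hent (M_mem p q)
  have h5 : (M K k p q) T0 B0 ≠ 0 := by
    rw [M_apply, if_pos]
    · exact mul_ne_zero (sg_ne _ _) (sg_ne _ _)
    · exact ⟨hpT, hqT', rfl⟩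
  rw [← h2] at h3
  have e : (1 + N) * M K k p q * (1 - N) = M K k p q + N * M K k p q -
      M K k p q * N - N * M K k p q * N := by noncomm_ring
  rw [e, Matrix.sub_apply, Matrix.sub_apply, Matrix.add_apply, h4, hN,
    Matrix.mul_single_apply_of_ne _ _ _ _ _ hBT, Matrix.mul_single_apply_of_ne _ _ _ _ _ hBT,
    Matrix.single_mul_apply_same, one_mul] at h3
  apply h5
  linear_combination h3

end UN.W

namespace UN

/-- E1 -/
theorem exists_wedge (K : Type*) [Field K] [CharZero K] {n k : ℕ} (hk : 2 ≤ k) (hn : k + 2 ≤ n) :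
    ∃ (m : Type) (_ : Fintype m) (_ : DecidableEq m) (J : Matrix m m K)
      (G : Subgroup (Matrix.GeneralLinearGroup m K)) (π : Matrix m m K)
      (W W' : Submodule K (m → K)),
      IsStrongMTPair ⊥ J G π ∧ IsUnitarySplit ⊥ J G W W' ∧
      finrank K (W.map π.mulVecLin) = (n - 1).choose (k - 1) ∧
      finrank K (W'.map π.mulVecLin) = (n - 1).choose k ∧
      (∃ u ∈ G, IsQuadraticOn u ⊤ (2 * (n - 2).choose (k - 1))) ∧ ¬ ContainsSU J G W W' := by
  set i0 : Fin n := ⟨0, by omega⟩
  set i1 : Fin n := ⟨1, by omega⟩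
  have h01 : i0 ≠ i1 := by
    intro h; exact absurd (congrArg Fin.val h) (by simp [i0, i1])
  refine ⟨TR.W3.Ix (Fin n) k ⊕ TR.W3.Ix (Fin n) k, inferInstance, inferInstance, W.Jd K _,
    W.GG K (Fin n) k, W.D (TR.W3.M K k i0 i0), W.W1 K _, W.W2 K _, W.strong i0, W.split, ?_, ?_,
    ⟨W.L (TR.W3.un K k h01), W.Lun_mem h01, ?_⟩, W.not_contains hk ?_⟩
  · rw [W.D, W.fr_W1, W.rank_in i0 (by omega), Fintype.card_fin]
  · rw [W.D, W.fr_W2, W.rank_notin i0, Fintype.card_fin]
  · have := W.quad (K := K) h01 (show 1 ≤ k by omega)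
    rwa [Fintype.card_fin] at this
  · rw [Fintype.card_fin]; exact hn

end UN
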