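import Pool.Agent.Helper4.TR.Wf
import Pool.Agent.Helper2.UN.Defs

/-!
Sharpness of the unitary theorem: doubling of the exterior powers.
-/

open Module MTPairs

namespace UN.W

open TR TR.W3

section double
variable {K : Type*} [Field K] {ι : Type*} [Fintype ι] [DecidableEq ι]

/-- The Gram matrix. -/
def Jd (K : Type*) [Field K] (ι : Type*) [DecidableEq ι] : Matrix (ι ⊕ ι) (ι ⊕ ι) K :=
  Matrix.fromBlocks 0 1 (-1) 0

/-- The double of an idempotent. -/
def D (P : Matrix ι ι K) : Matrix (ι ⊕ ι) (ι ⊕ ι) K := Matrix.fromBlocks P 0 0 (1 - P.transpose)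

omit [Fintype ι] in
lemma Jd_transpose : (Jd K ι).transpose = -Jd K ι := by
  unfold Jd
  rw [Matrix.fromBlocks_transpose, Matrix.fromBlocks_neg]
  simp

lemma Jd_sq : Jd K ι * Jd K ι = -1 := by
  unfold Jd
  rw [Matrix.fromBlocks_multiply, ← Matrix.fromBlocks_one, Matrix.fromBlocks_neg]
  simp

lemma Jd_det : (Jd K ι).det ≠ 0 := by
  have h : Jd K ι * (-Jd K ι) = 1 := by rw [mul_neg, Jd_sq, neg_neg]
  intro h0
  have := congrArg Matrix.det h
  rw [Matrix.det_mul, h0, zero_mul, Matrix.det_one] at this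
  exact zero_ne_one this

lemma D_idem {P : Matrix ι ι K} (h : P * P = P) : D P * D P = D P := by
  unfold D
  rw [Matrix.fromBlocks_multiply]
  have h1 : P.transpose * P.transpose = P.transpose := by rw [← Matrix.transpose_mul, h]
  congr 1
  · rw [h]; simp
  · simp
  · simp
  · rw [mul_sub, sub_mul, sub_mul, h1]; simp

lemma D_lag (P : Matrix ι ι K) : (D P).transpose * Jd K ι + Jd K ι * D P = Jd K ι := by
  unfold D Jd
  rw [Matrix.fromBlocks_transpose, Matrix.fromBlocks_multiply, Matrix.fromBlocks_multiply,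
    Matrix.fromBlocks_add]
  simp only [Matrix.transpose_zero, Matrix.mul_zero, Matrix.mul_one, zero_add, add_zero,
    Matrix.zero_mul, Matrix.one_mul, Matrix.transpose_sub, Matrix.transpose_one,
    Matrix.transpose_transpose, mul_neg, neg_mul, neg_zero]
  congr 1
  · abel
  · abel

omit [Fintype ι] in
lemma torus_D (P : Matrix ι ι K) (t : K) : t • D P + (1 - D P) =
    Matrix.fromBlocks (t • P + (1 - P)) 0 0 (t • (1 - P.transpose) + P.transpose) := by
  unfold D
  have e : (1 : Matrix (ι ⊕ ι) (ι ⊕ ι) K) - Matrix.fromBlocks P 0 0 (1 - P.transpose) =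
      Matrix.fromBlocks (1 - P) 0 0 P.transpose := by
    rw [← Matrix.fromBlocks_one, sub_eq_add_neg, Matrix.fromBlocks_neg, Matrix.fromBlocks_add]
    congr 1
    · abel
    · simp
    · simp
    · abel
  rw [e, Matrix.fromBlocks_smul, Matrix.fromBlocks_add]
  congr 1
  · simp
  · simp

/-- The double of an invertible matrix. -/
def L (g : Matrix.GeneralLinearGroup ι K) : Matrix.GeneralLinearGroup (ι ⊕ ι) K where
  val := Matrix.fromBlocks g.val 0 0 (g⁻¹).val.transpose
  inv := Matrix.fromBlocks (g⁻¹).val 0 0 g.val.transpose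
  val_inv := by
    rw [Matrix.fromBlocks_multiply, ← Matrix.fromBlocks_one, ← Matrix.transpose_mul]
    congr 1
    · simp
    · simp
    · simp
    · simp
  inv_val := by
    rw [Matrix.fromBlocks_multiply, ← Matrix.fromBlocks_one, ← Matrix.transpose_mul]
    congr 1
    · simp
    · simp
    · simp
    · simp

lemma L_val (g : Matrix.GeneralLinearGroup ι K) : (L g : Matrix (ι ⊕ ι) (ι ⊕ ι) K) =
    Matrix.fromBlocks g.val 0 0 (g⁻¹).val.transpose := rfl

lemma L_mul (g h : Matrix.GeneralLinearGroup ι K) : L (g * h) = L g * L h := by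
  apply Units.ext
  rw [Units.val_mul, L_val, L_val, L_val, Matrix.fromBlocks_multiply, mul_inv_rev, Units.val_mul,
    Units.val_mul, Matrix.transpose_mul]
  congr 1 <;> simp

lemma L_one : L (1 : Matrix.GeneralLinearGroup ι K) = 1 := by
  apply Units.ext
  rw [L_val, inv_one, Units.val_one, Units.val_one, Matrix.transpose_one, Matrix.fromBlocks_one]

lemma L_inv (g : Matrix.GeneralLinearGroup ι K) : L g⁻¹ = (L g)⁻¹ := by
  rw [eq_inv_iff_mul_eq_one, ← L_mul, inv_mul_cancel, L_one]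

lemma L_D (g : Matrix.GeneralLinearGroup ι K) (P : Matrix ι ι K) :
    (L g : Matrix (ι ⊕ ι) (ι ⊕ ι) K) * D P = D (g.val * P * (g⁻¹).val) * (L g).val := by
  rw [L_val, D, D, Matrix.fromBlocks_multiply, Matrix.fromBlocks_multiply]
  have h1 : (g⁻¹).val * g.val = 1 := by rw [← Units.val_mul, inv_mul_cancel, Units.val_one]
  have h2 : g.val * (g⁻¹).val = 1 := by rw [← Units.val_mul, mul_inv_cancel, Units.val_one]
  have h3 : (g⁻¹).val.transpose * g.val.transpose = 1 := by
    rw [← Matrix.transpose_mul, h2, Matrix.transpose_one]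
  have h4 : g.val.transpose * (g⁻¹).val.transpose = 1 := by
    rw [← Matrix.transpose_mul, h1, Matrix.transpose_one]
  congr 1
  · simp only [mul_assoc, h1, mul_one, Matrix.mul_zero, add_zero]
  · simp
  · simp
  · rw [Matrix.transpose_mul, Matrix.transpose_mul]
    simp only [Matrix.zero_mul, zero_add, mul_sub, sub_mul, mul_one, one_mul]
    rw [mul_assoc, mul_assoc, h4, mul_one]

/-- The first summand. -/
def W1 (K : Type*) [Field K] (ι : Type*) : Submodule K (ι ⊕ ι → K) where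
  carrier := {v | ∀ i, v (Sum.inr i) = 0}
  add_mem' := by
    intro a b ha hb i
    rw [Pi.add_apply, ha, hb, add_zero]
  zero_mem' := fun i => rfl
  smul_mem' := by
    intro c a ha i
    rw [Pi.smul_apply, ha, smul_zero]

/-- The second summand. -/
def W2 (K : Type*) [Field K] (ι : Type*) : Submodule K (ι ⊕ ι → K) where
  carrier := {v | ∀ i, v (Sum.inl i) = 0}
  add_mem' := by
    intro a b ha hb i
    rw [Pi.add_apply, ha, hb, add_zero]
  zero_mem' := fun i => rfl
  smul_mem' := by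
    intro c a ha i
    rw [Pi.smul_apply, ha, smul_zero]

/-- Inclusion of the first summand. -/
def i1 (K : Type*) [Field K] (ι : Type*) : (ι → K) →ₗ[K] (ι ⊕ ι → K) where
  toFun v := Sum.elim v 0
  map_add' a b := by ext (i | i) <;> simp
  map_smul' c a := by ext (i | i) <;> simp

/-- Inclusion of the second summand. -/
def i2 (K : Type*) [Field K] (ι : Type*) : (ι → K) →ₗ[K] (ι ⊕ ι → K) where
  toFun v := Sum.elim (0 : ι → K) v
  map_add' a b := by ext (i | i) <;> simp
  map_smul' c a := by ext (i | i) <;> simp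

omit [Fintype ι] [DecidableEq ι] in
lemma i1_apply (v : ι → K) : i1 K ι v = Sum.elim v 0 := rfl

omit [Fintype ι] [DecidableEq ι] in
lemma i2_apply (v : ι → K) : i2 K ι v = Sum.elim (0 : ι → K) v := rfl

omit [Fintype ι] [DecidableEq ι] in
lemma i1_inj : Function.Injective (i1 K ι) := by
  intro v w h
  ext i
  exact congrFun h (Sum.inl i)

omit [Fintype ι] [DecidableEq ι] in
lemma i2_inj : Function.Injective (i2 K ι) := by
  intro v w h
  ext i
  exact congrFun h (Sum.inr i)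

omit [Fintype ι] [DecidableEq ι] in
lemma range_i1 : LinearMap.range (i1 K ι) = W1 K ι := by
  ext v
  constructor
  · rintro ⟨w, rfl⟩ i
    rfl
  · intro hv
    refine ⟨fun i => v (Sum.inl i), ?_⟩
    ext (i | i)
    · rfl
    · exact (hv i).symm

omit [Fintype ι] [DecidableEq ι] in
lemma range_i2 : LinearMap.range (i2 K ι) = W2 K ι := by
  ext v
  constructor
  · rintro ⟨w, rfl⟩ i
    rfl
  · intro hv
    refine ⟨fun i => v (Sum.inr i), ?_⟩
    ext (i | i)
    · exact (hv i).symm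
    · rfl

omit [DecidableEq ι] in
lemma blk_i1 (A B : Matrix ι ι K) (v : ι → K) :
    (Matrix.fromBlocks A 0 0 B).mulVec (i1 K ι v) = i1 K ι (A.mulVec v) := by
  rw [i1_apply, i1_apply, Matrix.fromBlocks_mulVec]
  ext (i | i) <;> simp

omit [DecidableEq ι] in
lemma blk_i2 (A B : Matrix ι ι K) (v : ι → K) :
    (Matrix.fromBlocks A 0 0 B).mulVec (i2 K ι v) = i2 K ι (B.mulVec v) := by
  rw [i2_apply, i2_apply, Matrix.fromBlocks_mulVec]
  ext (i | i) <;> simp

omit [Fintype ι] [DecidableEq ι] in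
lemma compl_W : IsCompl (W1 K ι) (W2 K ι) := by
  rw [isCompl_iff]
  constructor
  · rw [Submodule.disjoint_def]
    intro v h1 h2
    ext (i | i)
    · exact h2 i
    · exact h1 i
  · rw [codisjoint_iff, eq_top_iff]
    intro v _
    rw [Submodule.mem_sup]
    refine ⟨Sum.elim (fun i => v (Sum.inl i)) 0, fun i => rfl,
      Sum.elim (0 : ι → K) (fun i => v (Sum.inr i)), fun i => rfl, ?_⟩
    ext (i | i) <;> simp

lemma iso1 : ∀ v ∈ W1 K ι, ∀ w ∈ W1 K ι, v ⬝ᵥ (Jd K ι).mulVec w = 0 := by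
  intro v hv w hw
  rw [← range_i1] at hv hw
  obtain ⟨v, rfl⟩ := hv
  obtain ⟨w, rfl⟩ := hw
  rw [i1_apply, i1_apply, Jd, Matrix.fromBlocks_mulVec]
  simp [dotProduct, Fintype.sum_sum_type]

lemma iso2 : ∀ v ∈ W2 K ι, ∀ w ∈ W2 K ι, v ⬝ᵥ (Jd K ι).mulVec w = 0 := by
  intro v hv w hw
  rw [← range_i2] at hv hw
  obtain ⟨v, rfl⟩ := hv
  obtain ⟨w, rfl⟩ := hw
  rw [i2_apply, i2_apply, Jd, Matrix.fromBlocks_mulVec]
  simp [dotProduct, Fintype.sum_sum_type]

/-- The centralizer of a matrix. -/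
def Cen {m : Type*} [Fintype m] [DecidableEq m] (e : Matrix m m K) :
    Subgroup (Matrix.GeneralLinearGroup m K) where
  carrier := {g | (g : Matrix m m K) * e = e * (g : Matrix m m K)}
  one_mem' := by simp
  mul_mem' := by
    intro a b ha hb
    change (a * b : Matrix.GeneralLinearGroup m K).val * e = e * (a * b : _).val
    rw [Units.val_mul, mul_assoc, hb, ← mul_assoc, ha, mul_assoc]
  inv_mem' := by
    intro a ha
    change (a⁻¹ : Matrix.GeneralLinearGroup m K).val * e = e * (a⁻¹ : _).val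
    have h1 : (a⁻¹).val * a.val = 1 := by rw [← Units.val_mul, inv_mul_cancel, Units.val_one]
    have h2 : a.val * (a⁻¹).val = 1 := by rw [← Units.val_mul, mul_inv_cancel, Units.val_one]
    calc (a⁻¹).val * e = (a⁻¹).val * e * (a.val * (a⁻¹).val) := by rw [h2, mul_one]
      _ = (a⁻¹).val * (e * a.val) * (a⁻¹).val := by noncomm_ring
      _ = (a⁻¹).val * (a.val * e) * (a⁻¹).val := by rw [ha]
      _ = ((a⁻¹).val * a.val) * e * (a⁻¹).val := by noncomm_ring
      _ = _ := by rw [h1, one_mul]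

lemma Cen_closed {m : Type*} [Fintype m] [DecidableEq m] (e : Matrix m m K) :
    ZariskiClosed (Cen e) := by
  refine ⟨{p | ∃ i j, p = (∑ a, MvPolynomial.X (i, a) * MvPolynomial.C (e a j)) -
    ∑ a, MvPolynomial.C (e i a) * MvPolynomial.X (a, j)}, fun g => ?_⟩
  have key : ∀ i j, MvPolynomial.eval (fun ij => (g : Matrix m m K) ij.1 ij.2)
      ((∑ a, MvPolynomial.X (i, a) * MvPolynomial.C (e a j)) -
        ∑ a, MvPolynomial.C (e i a) * MvPolynomial.X (a, j)) =
      ((g : Matrix m m K) * e) i j - (e * (g : Matrix m m K)) i j := by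
    intro i j
    simp [Matrix.mul_apply]
  constructor
  · rintro hg p ⟨i, j, rfl⟩
    rw [key, sub_eq_zero]
    exact congrFun (congrFun hg i) j
  · intro h
    change (g : Matrix m m K) * e = e * (g : Matrix m m K)
    ext i j
    have := h _ ⟨i, j, rfl⟩
    rwa [key, sub_eq_zero] at this

/-- The projection onto the first summand. -/
def e1 (K : Type*) [Field K] (ι : Type*) [DecidableEq ι] : Matrix (ι ⊕ ι) (ι ⊕ ι) K :=
  Matrix.fromBlocks 1 0 0 0

lemma e1_i1 (v : ι → K) : (e1 K ι).mulVec (i1 K ι v) = i1 K ι v := by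
  rw [e1, blk_i1, Matrix.one_mulVec]

lemma e1_i2 (v : ι → K) : (e1 K ι).mulVec (i2 K ι v) = 0 := by
  rw [e1, blk_i2, Matrix.zero_mulVec, map_zero]

lemma mem_W1 {v : ι ⊕ ι → K} : v ∈ W1 K ι ↔ (e1 K ι).mulVec v = v := by
  constructor
  · intro hv
    rw [← range_i1] at hv
    obtain ⟨v, rfl⟩ := hv
    exact e1_i1 v
  · intro hv i
    rw [← hv, e1]
    simp [Matrix.mulVec, dotProduct, Matrix.fromBlocks, Fintype.sum_sum_type]

lemma mem_W2 {v : ι ⊕ ι → K} : v ∈ W2 K ι ↔ (e1 K ι).mulVec v = 0 := by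
  constructor
  · intro hv
    rw [← range_i2] at hv
    obtain ⟨v, rfl⟩ := hv
    exact e1_i2 v
  · intro hv i
    have := congrFun hv (Sum.inl i)
    simpa [e1, Matrix.mulVec, dotProduct, Matrix.fromBlocks, Fintype.sum_sum_type,
      Matrix.one_apply] using this

lemma cen_W1 {g : Matrix.GeneralLinearGroup (ι ⊕ ι) K} (hg : g ∈ Cen (e1 K ι)) {v : ι ⊕ ι → K}
    (hv : v ∈ W1 K ι) : (g : Matrix (ι ⊕ ι) (ι ⊕ ι) K).mulVec v ∈ W1 K ι := by
  rw [mem_W1] at hv ⊢
  have h : (g : Matrix (ι ⊕ ι) (ι ⊕ ι) K) * e1 K ι = e1 K ι * (g : Matrix (ι ⊕ ι) (ι ⊕ ι) K) := hg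
  rw [Matrix.mulVec_mulVec, ← h, ← Matrix.mulVec_mulVec, hv]

lemma cen_W2 {g : Matrix.GeneralLinearGroup (ι ⊕ ι) K} (hg : g ∈ Cen (e1 K ι)) {v : ι ⊕ ι → K}
    (hv : v ∈ W2 K ι) : (g : Matrix (ι ⊕ ι) (ι ⊕ ι) K).mulVec v ∈ W2 K ι := by
  rw [mem_W2] at hv ⊢
  have h : (g : Matrix (ι ⊕ ι) (ι ⊕ ι) K) * e1 K ι = e1 K ι * (g : Matrix (ι ⊕ ι) (ι ⊕ ι) K) := hg
  rw [Matrix.mulVec_mulVec, ← h, ← Matrix.mulVec_mulVec, hv, Matrix.mulVec_zero]

lemma D_cen {P : Matrix ι ι K} (h : P * P = P) : IsCochar (Cen (e1 K ι)) (D P) := by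
  refine ⟨D_idem h, fun t ht => ?_⟩
  refine ⟨⟨t • D P + (1 - D P), t⁻¹ • D P + (1 - D P), torus_mul (D_idem h) ht, ?_⟩, ?_, rfl⟩
  · have := torus_mul (D_idem h) (inv_ne_zero ht)
    rwa [inv_inv] at this
  · change (t • D P + (1 - D P)) * e1 K ι = e1 K ι * (t • D P + (1 - D P))
    rw [torus_D, e1, Matrix.fromBlocks_multiply, Matrix.fromBlocks_multiply]
    simp

end double

end UN.W
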